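import Pool.Agent.Work.MP_dcf6a6_mg.Points
import Pool.Agent.Work.MP_dcf6a6_tv_helper73.FIN

/-!
# Abstract criterion: curves in the smooth locus of `Proj` of a section ring
-/

open CategoryTheory AlgebraicGeometry

namespace Pool.C1

noncomputable section

open Pool.TVar Pool.TVar.MG

/-- generic setup: a graded algebra with generators `x_v` such that the localisations at the
monomials in all the generators but one are formally smooth. -/
structure Setup (V : Type) [Fintype V] [DecidableEq V] {H R : Type} [AddCommGroup H]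
    [DecidableEq H] [CommRing R] [Algebra ℂ R] (ℛ : H → Submodule ℂ R) [GradedAlgebra ℛ] where
  deg : V → H
  nonempty : Nonempty V
  pointed : ∃ d : H →+ ℤ, ∀ v, 0 < d (deg v)
  generated : ∀ v, AddSubgroup.closure (deg '' {v}ᶜ) = ⊤
  π : MvPolynomial V ℂ →ₐ[ℂ] R
  surj : Function.Surjective π
  graded : ∀ v, π (MvPolynomial.X v) ∈ ℛ (deg v)
  ne : ∀ v, π (MvPolynomial.X v) ≠ 0
  fs : ∀ (v : V) (e : V → ℕ), e v = 0 → (∀ v', v' ≠ v → 0 < e v') →
    Algebra.FormallySmooth ℂ (Localization.Away (∏ v', π (MvPolynomial.X v') ^ e v'))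

variable {V H : Type} [Fintype V] [DecidableEq V] [AddCommGroup H] [DecidableEq H]
    {R : Type} [CommRing R] [Algebra ℂ R] {ℛ : H → Submodule ℂ R}
    [GradedAlgebra ℛ] {L : H} {A : Type} [CommRing A] [Algebra ℂ A] {𝒜 : ℕ → Submodule ℂ A}
    [GradedAlgebra 𝒜]

/-- the image of the variable `v` -/
abbrev xv (su : Setup V ℛ) (v : V) : R := su.π (MvPolynomial.X v)

theorem mono_mem (su : Setup V ℛ) (e : V → ℕ) :
    ∏ v, xv su v ^ e v ∈ ℛ (∑ v, e v • su.deg v) :=
  SetLike.prod_mem_graded ℛ _ _ (fun v _ => SetLike.pow_mem_graded _ (su.graded v))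

theorem exists_units_mono (su : Setup V ℛ) (v : V) (e : V → ℕ) {n : ℕ}
    (hpos : ∀ v', v' ≠ v → 0 < e v') (hsum : ∑ v', e v' • su.deg v' = n • L) {g : R}
    (hg : g = ∏ v', xv su v' ^ e v') :
    ∃ (δ : ({v' // v' ≠ v} →₀ ℤ) →+ H) (U : ({v' // v' ≠ v} →₀ ℤ) → Localization.Away g),
      Function.Surjective δ ∧ U 0 = 1 ∧ (∀ e e', U (e + e') = U e * U e') ∧
        ∀ e, HasDeg ℛ L n g (U e) (δ e) := by
  have hgu : IsUnit (algebraMap R (Localization.Away g) g) :=
    IsLocalization.Away.algebraMap_isUnit g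
  -- the cofactor of `x_{v'}` in `g`
  have hcof : ∀ v', v' ≠ v → ∃ c ∈ ℛ (-su.deg v' + n • L), xv su v' * c = g := by
    intro v' hv'
    set e' : V → ℕ := Function.update e v' (e v' - 1) with he'
    have he1 : e' v' + 1 = e v' := by
      rw [he', Function.update_self]; have := hpos v' hv'; omega
    have he2 : ∀ w, w ≠ v' → e' w = e w := fun w hw => by rw [he', Function.update_of_ne hw]
    refine ⟨∏ w, xv su w ^ e' w, ?_, ?_⟩
    · have h1 := mono_mem su e'
      have h2 : ∑ w, e' w • su.deg w = -su.deg v' + n • L := by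
        rw [← hsum, ← Finset.add_sum_erase _ _ (Finset.mem_univ v'),
          ← Finset.add_sum_erase (a := v') Finset.univ (fun w => e w • su.deg w)
            (Finset.mem_univ v'), ← he1, add_smul, one_smul]
        have h3 : ∑ w ∈ Finset.univ.erase v', e' w • su.deg w =
            ∑ w ∈ Finset.univ.erase v', e w • su.deg w :=
          Finset.sum_congr rfl fun w hw => by rw [he2 w (Finset.ne_of_mem_erase hw)]
        rw [h3]
        abel
      rwa [h2] at h1
    · rw [hg, ← Finset.mul_prod_erase _ _ (Finset.mem_univ v'),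
        ← Finset.mul_prod_erase (a := v') Finset.univ (fun w => xv su w ^ e w)
          (Finset.mem_univ v'), ← he1, pow_succ]
      have h3 : ∏ w ∈ Finset.univ.erase v', xv su w ^ e' w =
          ∏ w ∈ Finset.univ.erase v', xv su w ^ e w :=
        Finset.prod_congr rfl fun w hw => by rw [he2 w (Finset.ne_of_mem_erase hw)]
      rw [h3]
      ring
  have hu : ∀ v' : {v' // v' ≠ v}, IsUnit (algebraMap R (Localization.Away g) (xv su v')) := by
    rintro ⟨v', hv'⟩
    obtain ⟨c, -, hc⟩ := hcof v' hv'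
    have h1 := congrArg (algebraMap R (Localization.Away g)) hc
    rw [map_mul] at h1
    exact isUnit_of_mul_isUnit_left (h1 ▸ hgu)
  choose x hx using hu
  refine exists_units (V := {v' // v' ≠ v}) (fun v' => su.deg v') x ?_ ?_ ?_
  · rw [← su.generated v]
    congr 1
    ext η
    constructor
    · rintro ⟨⟨v', hv'⟩, rfl⟩
      exact ⟨v', hv', rfl⟩
    · rintro ⟨v', hv', rfl⟩
      exact ⟨⟨v', hv'⟩, rfl⟩
  · intro v'
    refine ⟨0, xv su v', ?_, ?_⟩
    · rw [zero_smul, add_zero]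
      exact su.graded v'
    · rw [pow_zero, map_one, mul_one]
      exact hx v'
  · rintro ⟨v', hv'⟩
    obtain ⟨c, hc, hcg⟩ := hcof v' hv'
    refine ⟨1, c, ?_, ?_⟩
    · rw [one_smul]; exact hc
    · have h1 := hx ⟨v', hv'⟩
      have h2 := congrArg (algebraMap R (Localization.Away g)) hcg
      rw [map_mul] at h2
      simp only at h1
      rw [pow_one, ← h2, ← mul_assoc, ← h1, Units.inv_mul, one_mul]

theorem finiteType_away (su : Setup V ℛ) (g : R) :
    Algebra.FiniteType ℂ (Localization.Away g) := by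
  have h1 : Algebra.FiniteType ℂ R :=
    (inferInstance : Algebra.FiniteType ℂ (MvPolynomial V ℂ)).of_surjective su.π su.surj
  have h2 : Algebra.FiniteType R (Localization.Away g) :=
    IsLocalization.finiteType_of_monoid_fg (Submonoid.powers g) _
  exact Algebra.FiniteType.trans h1 h2

theorem smooth_away (su : Setup V ℛ) (sr : SectionRing ℛ L A 𝒜) (v : V)
    {n : ℕ} {h : A} (hh : h ∈ 𝒜 n) (e : V → ℕ) (hev : e v = 0)
    (hpos : ∀ v', v' ≠ v → 0 < e v') (hsum : ∑ v', e v' • su.deg v' = n • L)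
    (hg : sr.ι h = ∏ v', xv su v' ^ e v') :
    (strAway 𝒜 h).Smooth := by
  obtain ⟨δ, U, hδ, hU0, hUadd, hU⟩ := exists_units_mono su v e hpos hsum hg
  have hfs : Algebra.FormallySmooth ℂ (Localization.Away (sr.ι h)) := by
    rw [hg]
    exact su.fs v e hev hpos
  have hft := finiteType_zero sr hh su.π su.surj su.deg su.graded δ hδ U hU0 hUadd hU
  let _ : Algebra ℂ (HomogeneousLocalization.Away 𝒜 h) := (strAway 𝒜 h).toAlgebra
  have hft' : Algebra.FiniteType ℂ (HomogeneousLocalization.Away 𝒜 h) := hft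
  have h1 : Algebra.FinitePresentation ℂ (HomogeneousLocalization.Away 𝒜 h) :=
    Algebra.FinitePresentation.of_finiteType.1 hft'
  have h2 : Algebra.FormallySmooth ℂ (HomogeneousLocalization.Away 𝒜 h) := by
    refine formallySmooth_descent (T := HomogeneousLocalization.Away 𝒜 h)
      (S := Localization.Away (sr.ι h))
      { toRingHom := kap sr h
        commutes' := fun c => kap_strAway sr h c } hfs ?_
    intro Q _ _ 𝔞 h𝔞 f
    exact exists_B sr hh δ hδ U hU0 hUadd hU Q 𝔞 h𝔞 f.toRingHom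
  exact ⟨h2, h1⟩

theorem exists_point (su : Setup V ℛ) (sr : SectionRing ℛ L A 𝒜) (v₀ : V)
    {m : ℕ} (hm : 0 < m) {g : A} (hg : g ∈ 𝒜 m) (ex : V → ℕ)
    (hpos : ∀ v', v' ≠ v₀ → 0 < ex v') (hsum : ∑ v', ex v' • su.deg v' = m • L)
    (hgι : sr.ι g = ∏ v', xv su v' ^ ex v')
    (x : Proj 𝒜) (hx : x ∈ Proj.basicOpen 𝒜 g) (hxc : IsClosed ({x} : Set (Proj 𝒜))) :
    ∃ e : R →ₐ[ℂ] ℂ, e (sr.ι g) ≠ 0 ∧
      ∀ n, ∀ a ∈ 𝒜 n, a ∈ x.asHomogeneousIdeal ↔ e (sr.ι a) = 0 := by
  classical
  obtain ⟨δ, U, hδ, hU0, hUadd, hU⟩ := exists_units_mono su v₀ ex hpos hsum hgι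
  have hinj := kap_injective sr g
  have hft := finiteType_zero sr hg su.π su.surj su.deg su.graded δ hδ U hU0 hUadd hU
  let _ : Algebra ℂ (HomogeneousLocalization.Away 𝒜 g) := (strAway 𝒜 g).toAlgebra
  have hfR : Algebra.FiniteType ℂ (HomogeneousLocalization.Away 𝒜 g) := hft
  have hrange : x ∈ (Proj.awayι 𝒜 g hg hm).opensRange := by
    rw [Proj.opensRange_awayι]; exact hx
  obtain ⟨p, hp⟩ := hrange
  have hpc : IsClosed ({p} : Set (PrimeSpectrum (HomogeneousLocalization.Away 𝒜 g))) := by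
    have h1 : IsClosed ((Proj.awayι 𝒜 g hg hm) ⁻¹' {x}) :=
      hxc.preimage (Proj.awayι 𝒜 g hg hm).continuous
    have h2 : (Proj.awayι 𝒜 g hg hm) ⁻¹' {x} = {p} := by
      ext q
      simp only [Set.mem_preimage, Set.mem_singleton_iff]
      constructor
      · intro h
        exact (Proj.awayι 𝒜 g hg hm).isOpenEmbedding.injective (h.trans hp.symm)
      · rintro rfl; exact hp
    rw [h2] at h1
    exact h1
  have hmax : p.asIdeal.IsMaximal := (PrimeSpectrum.isClosed_singleton_iff_isMaximal p).mp hpc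
  obtain ⟨χ, hχ⟩ := Pool.TVar.helper73.exists_char p.asIdeal hmax
  -- extension of `χ` to `R_g`
  have hz : ∀ l : δ.ker, ∃ z, kap sr g z = U l := by
    intro l
    apply exists_kap sr hg
    have := hU l
    rwa [l.2] at this
  choose z hz using hz
  have hz0 : z 0 = 1 := hinj (by rw [hz, map_one]; exact hU0)
  have hzadd : ∀ l l', z (l + l') = z l * z l' := fun l l' => hinj (by
    rw [hz, map_mul, hz, hz]; exact hUadd _ _)
  obtain ⟨t, ht0, htadd, htl⟩ := exists_char_ext δ.ker (fun l => χ (z l))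
    (by simp only [hz0, map_one]) (fun l l' => by simp only [hzadd, map_mul])
  obtain ⟨G, hG, -⟩ := exists_ext sr hg δ hδ U hU0 hUadd hU χ.toRingHom t ht0 htadd (by
    intro e he w hw
    have h1 : w = z ⟨e, he⟩ := hinj (by rw [hw, hz])
    rw [h1]
    exact (htl ⟨e, he⟩).symm)
  let e : R →ₐ[ℂ] ℂ :=
    { G.comp (algebraMap R (Localization.Away (sr.ι g))) with
      commutes' := fun c => by
        change G (algebraMap R (Localization.Away (sr.ι g)) (algebraMap ℂ R c)) = c
        rw [← IsScalarTower.algebraMap_apply ℂ R (Localization.Away (sr.ι g)), ← kap_strAway, hG]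
        exact χ.commutes c }
  have he : ∀ a, e a = G (algebraMap R (Localization.Away (sr.ι g)) a) := fun a => rfl
  have heg : e (sr.ι g) ≠ 0 := by
    rw [he]; exact ((IsLocalization.Away.algebraMap_isUnit (sr.ι g)).map G).ne_zero
  have key : ∀ n, 0 < n → ∀ a ∈ 𝒜 n, a ∈ x.asHomogeneousIdeal ↔ e (sr.ι a) = 0 := by
    intro n hn a ha
    have h1 : x ∈ Proj.basicOpen 𝒜 a ↔
        p ∈ PrimeSpectrum.basicOpen (HomogeneousLocalization.Away.isLocalizationElem hg ha) := by
      rw [← Proj.awayι_preimage_basicOpen 𝒜 hg hm ha hn, ← hp]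
      rfl
    rw [Proj.mem_basicOpen] at h1
    have h2 : p ∈ PrimeSpectrum.basicOpen (HomogeneousLocalization.Away.isLocalizationElem hg ha) ↔
        HomogeneousLocalization.Away.isLocalizationElem hg ha ∉ p.asIdeal := Iff.rfl
    rw [h2, not_iff_not, ← hχ] at h1
    rw [h1, he]
    have h3 : kap sr g (HomogeneousLocalization.Away.isLocalizationElem hg ha) *
        algebraMap R (Localization.Away (sr.ι g)) (sr.ι (g ^ n)) =
          algebraMap R (Localization.Away (sr.ι g)) (sr.ι (a ^ m)) := by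
      exact kap_mk sr g _
    have h5 := congrArg G h3
    rw [map_mul, hG, map_pow, map_pow, map_pow, map_pow, map_pow, map_pow] at h5
    have h5 : χ (HomogeneousLocalization.Away.isLocalizationElem hg ha) *
        G (algebraMap R (Localization.Away (sr.ι g)) (sr.ι g)) ^ n =
          G (algebraMap R (Localization.Away (sr.ι g)) (sr.ι a)) ^ m := h5
    have h6 : G (algebraMap R (Localization.Away (sr.ι g)) (sr.ι g)) ^ n ≠ 0 :=
      pow_ne_zero _ heg
    constructor
    · intro h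
      rw [h, zero_mul] at h5
      exact pow_eq_zero_iff hm.ne' |>.mp h5.symm
    · intro h
      rw [h, zero_pow hm.ne'] at h5
      exact (mul_eq_zero.mp h5).resolve_right h6
  refine ⟨e, heg, ?_⟩
  intro n a ha
  rcases Nat.eq_zero_or_pos n with rfl | hn
  · have h1 : a * g ∈ 𝒜 m := by
      have := SetLike.mul_mem_graded ha hg
      simpa using this
    have h2 := key m hm (a * g) h1
    rw [map_mul, map_mul] at h2
    constructor
    · intro h
      have h3 := h2.mp (x.asHomogeneousIdeal.toIdeal.mul_mem_right g h)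
      exact (mul_eq_zero.mp h3).resolve_right heg
    · intro h
      rw [h, zero_mul] at h2
      have h3 := h2.mpr rfl
      exact (x.isPrime.mem_or_mem h3).resolve_right hx
  · exact key n hn a ha

theorem pi_monomial_mem (su : Setup V ℛ) (n : V →₀ ℕ) (c : ℂ) :
    su.π (MvPolynomial.monomial n c) ∈ ℛ (Finsupp.weight su.deg n) := by
  rw [MvPolynomial.monomial_eq, map_mul]
  have h0 : su.π (MvPolynomial.C c) = algebraMap ℂ R c := by
    rw [← MvPolynomial.algebraMap_eq]; exact su.π.commutes c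
  rw [h0, ← Algebra.smul_def]
  refine Submodule.smul_mem _ _ ?_
  rw [Finsupp.prod, map_prod, Finsupp.weight_apply, Finsupp.sum]
  refine SetLike.prod_mem_graded _ _ _ fun v _ => ?_
  rw [map_pow]
  exact SetLike.pow_mem_graded _ (su.graded v)

/-- elements of degree `η` are images of polynomials of weighted degree `d(η)` -/
theorem exists_homog_rep (su : Setup V ℛ) (d : H →+ ℤ) (hd : ∀ v, 0 < d (su.deg v))
    (η : H) (r : R) (hr : r ∈ ℛ η) :
    ∃ P : MvPolynomial V ℂ,
      P.IsWeightedHomogeneous (fun v => (d (su.deg v)).toNat) (d η).toNat ∧ su.π P = r := by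
  have key : ∀ P : MvPolynomial V ℂ, ∃ P' : MvPolynomial V ℂ,
      P'.IsWeightedHomogeneous (fun v => (d (su.deg v)).toNat) (d η).toNat ∧
        su.π P' = ((DirectSum.decompose ℛ (su.π P) η : ℛ η) : R) := by
    intro P
    induction P using MvPolynomial.induction_on' with
    | monomial n c =>
      by_cases hn : Finsupp.weight su.deg n = η
      · refine ⟨MvPolynomial.monomial n c, ?_, ?_⟩
        · apply MvPolynomial.isWeightedHomogeneous_monomial
          have h1 := weight_cast su.deg d hd n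
          rw [hn] at h1
          omega
        · subst hn
          rw [DirectSum.decompose_of_mem_same _ (pi_monomial_mem su n c)]
      · refine ⟨0, MvPolynomial.isWeightedHomogeneous_zero _ _ _, ?_⟩
        rw [DirectSum.decompose_of_mem_ne _ (pi_monomial_mem su n c) hn, map_zero]
    | add p q hp hq =>
      obtain ⟨p', hp1, hp2⟩ := hp
      obtain ⟨q', hq1, hq2⟩ := hq
      refine ⟨p' + q', hp1.add hq1, ?_⟩
      rw [map_add, map_add, DirectSum.decompose_add, DirectSum.add_apply, Submodule.coe_add,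
        hp2, hq2]
  obtain ⟨P, rfl⟩ := su.surj r
  obtain ⟨P', h1, h2⟩ := key P
  exact ⟨P', h1, by rw [h2, DirectSum.decompose_of_mem_same _ hr]⟩

theorem algHom_ext_of (su : Setup V ℛ) {C : Type} [CommRing C] [Algebra ℂ C] (f g : R →ₐ[ℂ] C)
    (h : ∀ v, f (xv su v) = g (xv su v)) (a : R) : f a = g a := by
  obtain ⟨P, rfl⟩ := su.surj a
  have : f.comp su.π = g.comp su.π := MvPolynomial.algHom_ext h
  exact DFunLike.congr_fun this P

theorem exists_ne (su : Setup V ℛ) (v : V) : ∃ v', v' ≠ v := by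
  by_contra hcon
  push Not at hcon
  obtain ⟨d, hd⟩ := su.pointed
  have h1 : su.deg '' {v}ᶜ = ∅ := by
    rw [Set.image_eq_empty, Set.eq_empty_iff_forall_notMem]
    intro v' hv'
    exact hv' (hcon v')
  have h2 := su.generated v
  rw [h1, AddSubgroup.closure_empty] at h2
  have h3 : su.deg v ∈ (⊥ : AddSubgroup H) := by rw [h2]; trivial
  rw [AddSubgroup.mem_bot] at h3
  have := hd v
  rw [h3, map_zero] at this
  exact lt_irrefl _ this

theorem prod_notMem {S : Type} [CommRing S] (q : Ideal S) (hq : q.IsPrime) {V : Type} [Fintype V]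
    (F : V → S) (e : V → ℕ) (h : ∀ v, e v ≠ 0 → F v ∉ q) : ∏ v, F v ^ e v ∉ q := by
  intro hmem
  rw [hq.prod_mem_iff] at hmem
  obtain ⟨v, -, hv⟩ := hmem
  by_cases he : e v = 0
  · rw [he, pow_zero] at hv
    exact hq.ne_top ((Ideal.eq_top_iff_one _).mpr hv)
  · exact h v he (hq.mem_of_pow_mem _ hv)

/-- image of weighted homogeneous polynomials -/
theorem map_homog (su : Setup V ℛ) (wt : V → ℕ) (N : ℕ) (φ : R →ₐ[ℂ] MvPolynomial (Fin 2) ℂ)
    (hφ : ∀ v, φ (xv su v) ∈ lineGr (N * wt v)) (P : MvPolynomial V ℂ) (n : ℕ)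
    (hP : P.IsWeightedHomogeneous wt n) : φ (su.π P) ∈ lineGr (N * n) := by
  rw [P.as_sum, map_sum, map_sum]
  refine Submodule.sum_mem _ fun m hm => ?_
  have hw : Finsupp.weight wt m = n := hP (MvPolynomial.mem_support_iff.mp hm)
  rw [MvPolynomial.monomial_eq, map_mul, map_mul]
  have h0 : φ (su.π (MvPolynomial.C (MvPolynomial.coeff m P))) =
      algebraMap ℂ _ (MvPolynomial.coeff m P) := by
    rw [← MvPolynomial.algebraMap_eq, AlgHom.commutes, AlgHom.commutes]
  rw [h0, ← Algebra.smul_def]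
  refine Submodule.smul_mem _ _ ?_
  rw [Finsupp.prod, map_prod, map_prod, ← hw, Finsupp.weight_apply, Finsupp.sum, Finset.mul_sum]
  refine SetLike.prod_mem_graded _ _ _ fun v _ => ?_
  rw [map_pow, map_pow]
  have h1 := SetLike.pow_mem_graded (m v) (hφ v)
  have h2 : N * m v • wt v = m v • (N * wt v) := by
    rw [smul_eq_mul, smul_eq_mul]; ring
  rw [h2]
  exact h1

theorem abs_main [IsDomain R] (hLOC : Stmt_LOC) (hPMAP : Stmt_PMAP) (hP1 : Stmt_P1)
    (hDENS : Stmt_DENS) (su : Setup V ℛ)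
    (hL : ∀ v, ∃ n : ℕ, 0 < n ∧ ∃ e : V → ℕ, e v = 0 ∧ (∀ v', v' ≠ v → 0 < e v') ∧
      ∑ v', e v' • su.deg v' = n • L)
    (hcurve : ∀ d : H →+ ℤ, (∀ v, 0 < d (su.deg v)) → ∀ x y : R →ₐ[ℂ] ℂ,
      (∀ v, x (xv su v) ≠ 0) → (∀ v, y (xv su v) ≠ 0) →
      ∃ (N : ℕ) (φ : R →ₐ[ℂ] MvPolynomial (Fin 2) ℂ), 0 < N ∧
        (∀ v, φ (xv su v) ∈ lineGr (N * (d (su.deg v)).toNat)) ∧
        (∀ v, MvPolynomial.eval ![0, 1] (φ (xv su v)) = x (xv su v)) ∧
        (∀ v, MvPolynomial.eval ![1, 0] (φ (xv su v)) = y (xv su v)) ∧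
        (∀ v, ∃ t, MvPolynomial.eval ![t, 1] (φ (xv su v)) = 0) ∧
        (∀ q : Ideal (MvPolynomial (Fin 2) ℂ), q.IsPrime →
          (MvPolynomial.X 0 ∉ q ∨ MvPolynomial.X 1 ∉ q) →
          ∀ v v', v ≠ v' → φ (xv su v) ∈ q → φ (xv su v') ∉ q))
    (sr : SectionRing ℛ L A 𝒜) :
    ∃ U : (Proj 𝒜).Opens, Dense (U : Set (Proj 𝒜)) ∧ (∀ x ∈ U, IsSmoothPt (structMap 𝒜) x) ∧
      ∀ x y : Proj 𝒜, x ∈ U → y ∈ U → IsClosed ({x} : Set (Proj 𝒜)) →
        IsClosed ({y} : Set (Proj 𝒜)) →
        ∃ f : Proj lineGr ⟶ Proj 𝒜, f ≫ structMap 𝒜 = structMap lineGr ∧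
          (∀ q, IsSmoothPt (structMap 𝒜) (f q)) ∧ (∃ q q', f q ≠ f q') ∧
          x ∈ Set.range f ∧ y ∈ Set.range f := by
  classical
  have hdom : IsDomain A := sr.inj.isDomain sr.ι.toRingHom
  obtain ⟨v₀⟩ := su.nonempty
  obtain ⟨v₁, hv₁⟩ := exists_ne su v₀
  obtain ⟨d, hd⟩ := su.pointed
  have hx0 : ∀ v, xv su v ≠ 0 := su.ne
  -- the monomials `h_v`
  choose nn hnn ee he0 hepos hesum using hL
  have hhv : ∀ v, ∃ h ∈ 𝒜 (nn v), sr.ι h = ∏ v', xv su v' ^ ee v v' := by
    intro v
    have h1 := mono_mem su (ee v)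
    rw [hesum v] at h1
    exact mem_section sr h1
  choose hv hvmem hvι using hhv
  have hsm : ∀ (x : Proj 𝒜) (v : V), hv v ∉ x.asHomogeneousIdeal →
      IsSmoothPt (structMap 𝒜) x := by
    intro x v hx
    exact hLOC 𝒜 (hv v) (nn v) (hvmem v) (hnn v)
      (smooth_away su sr v (hvmem v) (ee v) (he0 v) (hepos v) (hesum v) (hvι v)) x hx
  -- the monomial `g`
  set g := hv v₀ * hv v₁ with hg
  set eg : V → ℕ := fun v => ee v₀ v + ee v₁ v with heg
  have hgmem : g ∈ 𝒜 (nn v₀ + nn v₁) := SetLike.mul_mem_graded (hvmem v₀) (hvmem v₁)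
  have hgι : sr.ι g = ∏ v, xv su v ^ eg v := by
    rw [hg, map_mul, hvι, hvι, ← Finset.prod_mul_distrib]
    exact Finset.prod_congr rfl fun v _ => (pow_add _ _ _).symm
  have hegpos : ∀ v, 0 < eg v := by
    intro v
    by_cases h : v = v₀
    · have := hepos v₁ v (by rw [h]; exact hv₁.symm)
      simp only [heg]; omega
    · have := hepos v₀ v h
      simp only [heg]; omega
  have hegsum : ∑ v, eg v • su.deg v = (nn v₀ + nn v₁) • L := by
    rw [add_smul, ← hesum v₀, ← hesum v₁, ← Finset.sum_add_distrib]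
    exact Finset.sum_congr rfl fun v _ => add_smul _ _ _
  have hgpos : 0 < nn v₀ + nn v₁ := by have := hnn v₀; omega
  have hg0 : g ≠ 0 := by
    intro h
    have h1 : sr.ι g = 0 := by rw [h, map_zero]
    rw [hgι, Finset.prod_eq_zero_iff] at h1
    obtain ⟨v, -, h2⟩ := h1
    exact hx0 v (pow_eq_zero_iff (hegpos v).ne' |>.mp h2)
  -- `d L > 0`
  have hdL : 0 < d L := by
    have h1 := congrArg d (hesum v₀)
    rw [map_sum, map_nsmul] at h1
    have h2 : 0 < ∑ v, d (ee v₀ v • su.deg v) := by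
      refine Finset.sum_pos' (fun v _ => ?_) ⟨v₁, Finset.mem_univ _, ?_⟩
      · rw [map_nsmul]; exact nsmul_nonneg (hd v).le _
      · rw [map_nsmul]; exact nsmul_pos (hd v₁) (hepos v₀ v₁ hv₁).ne'
    rw [h1] at h2
    by_contra hcon
    push Not at hcon
    have h3 : (nn v₀) • d L ≤ 0 := by
      rw [nsmul_eq_mul]
      exact mul_nonpos_of_nonneg_of_nonpos (by positivity) hcon
    omega
  refine ⟨Proj.basicOpen 𝒜 g, hDENS 𝒜 g _ hgmem hg0, ?_, ?_⟩
  · intro x hx
    refine hsm x v₀ fun h => hx ?_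
    exact x.asHomogeneousIdeal.toIdeal.mul_mem_right _ h
  · intro x y hx hy hxc hyc
    obtain ⟨ex, hexg, hex⟩ := exists_point su sr v₀ hgpos hgmem eg (fun v _ => hegpos v) hegsum
      hgι x hx hxc
    obtain ⟨ey, heyg, hey⟩ := exists_point su sr v₀ hgpos hgmem eg (fun v _ => hegpos v) hegsum
      hgι y hy hyc
    have hcoord : ∀ e : R →ₐ[ℂ] ℂ, e (sr.ι g) ≠ 0 → ∀ v, e (xv su v) ≠ 0 := by
      intro e he v h
      apply he
      rw [hgι, map_prod, Finset.prod_eq_zero_iff]
      exact ⟨v, Finset.mem_univ _, by rw [map_pow, h, zero_pow (hegpos v).ne']⟩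
    obtain ⟨N, φ, hN, hφgr, hφ0, hφ1, hφt, hφq⟩ := hcurve d hd ex ey (hcoord ex hexg)
      (hcoord ey heyg)
    set ψ : A →ₐ[ℂ] MvPolynomial (Fin 2) ℂ := φ.comp sr.ι with hψ
    have hψgr : ∀ n, ∀ a ∈ 𝒜 n, ψ a ∈ lineGr (N * (d L).toNat * n) := by
      intro n a ha
      have h1 := ι_mem sr ha
      obtain ⟨P, hP, hPr⟩ := exists_homog_rep su d hd _ _ h1
      have h2 := map_homog su _ N φ hφgr P _ hP
      rw [hPr] at h2
      have h3 : N * (d (n • L)).toNat = N * (d L).toNat * n := by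
        have h4 : (d (n • L)).toNat = (d L).toNat * n := by
          rw [map_nsmul, nsmul_eq_mul]
          have h5 : ((n : ℤ) * d L) = (((d L).toNat * n : ℕ) : ℤ) := by
            rw [Nat.cast_mul, Int.toNat_of_nonneg hdL.le]; ring
          rw [h5]
          exact Int.toNat_natCast _
        rw [h4]; ring
      rw [h3] at h2
      exact h2
    have hψprod : ∀ (a : A) (e : V → ℕ), sr.ι a = ∏ v, xv su v ^ e v →
        ψ a = ∏ v, φ (xv su v) ^ e v := by
      intro a e h
      rw [hψ, AlgHom.comp_apply, h, map_prod]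
      exact Finset.prod_congr rfl fun v _ => map_pow _ _ _
    have hq : ∀ q : Proj lineGr, ∃ v, ψ (hv v) ∉ q.asHomogeneousIdeal := by
      intro q
      by_cases h : ∃ v, φ (xv su v) ∈ q.asHomogeneousIdeal
      · obtain ⟨v, hvq⟩ := h
        refine ⟨v, ?_⟩
        rw [hψprod _ _ (hvι v)]
        refine prod_notMem q.asHomogeneousIdeal.toIdeal q.isPrime _ _ fun v' hv' => ?_
        refine hφq q.asHomogeneousIdeal.toIdeal q.isPrime (hP1.2 q) v v' ?_ hvq
        rintro rfl
        exact hv' (he0 _)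
      · push Not at h
        refine ⟨v₀, ?_⟩
        rw [hψprod _ _ (hvι v₀)]
        exact prod_notMem q.asHomogeneousIdeal.toIdeal q.isPrime _ _ fun v' _ => h v'
    have hdeg : 0 < N * (d L).toNat := Nat.mul_pos hN (by omega)
    obtain ⟨f, hfs, hf⟩ := hPMAP 𝒜 lineGr ψ (N * (d L).toNat) hdeg hψgr (by
      intro q
      obtain ⟨v, hvq⟩ := hq q
      exact ⟨nn v, hnn v, hv v, hvmem v, hvq⟩)
    obtain ⟨q0, hq0⟩ := hP1.1 ![0, 1] (by
      intro h; have := congrFun h 1; simp at this)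
    obtain ⟨q1, hq1⟩ := hP1.1 ![1, 0] (by
      intro h; have := congrFun h 0; simp at this)
    have hfx : f q0 = x := by
      apply Pool.TVar.helper73.point_ext
      intro n a ha
      rw [hf q0 n a ha, hq0 _ _ (hψgr n a ha), hex n a ha]
      have : MvPolynomial.eval ![0, 1] (ψ a) = ex (sr.ι a) := by
        have := algHom_ext_of su ((MvPolynomial.aeval ![(0 : ℂ), 1]).comp φ) ex (fun v => by
          rw [AlgHom.comp_apply, Pool.TVar.helper73.aev]
          exact hφ0 v) (sr.ι a)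
        rw [← this]
        change _ = MvPolynomial.aeval ![(0 : ℂ), 1] (φ (sr.ι a))
        rw [Pool.TVar.helper73.aev]
        rfl
      rw [this]
    have hfy : f q1 = y := by
      apply Pool.TVar.helper73.point_ext
      intro n a ha
      rw [hf q1 n a ha, hq1 _ _ (hψgr n a ha), hey n a ha]
      have : MvPolynomial.eval ![1, 0] (ψ a) = ey (sr.ι a) := by
        have := algHom_ext_of su ((MvPolynomial.aeval ![(1 : ℂ), 0]).comp φ) ey (fun v => by
          rw [AlgHom.comp_apply, Pool.TVar.helper73.aev]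
          exact hφ1 v) (sr.ι a)
        rw [← this]
        change _ = MvPolynomial.aeval ![(1 : ℂ), 0] (φ (sr.ι a))
        rw [Pool.TVar.helper73.aev]
        rfl
      rw [this]
    refine ⟨f, hfs, ?_, ?_, ⟨q0, hfx⟩, ⟨q1, hfy⟩⟩
    · intro q
      obtain ⟨v, hvq⟩ := hq q
      refine hsm (f q) v fun h => hvq ?_
      exact (hf q _ _ (hvmem v)).mp h
    · obtain ⟨t, ht⟩ := hφt v₀
      obtain ⟨qt, hqt⟩ := hP1.1 ![t, 1] (by
        intro h; have := congrFun h 1; simp at this)
      refine ⟨qt, q0, ?_⟩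
      intro heq
      have h1 : g ∈ (f qt).asHomogeneousIdeal := by
        rw [hf qt _ g hgmem, hqt _ _ (hψgr _ _ hgmem), hψprod _ _ hgι, map_prod,
          Finset.prod_eq_zero_iff]
        refine ⟨v₀, Finset.mem_univ _, ?_⟩
        rw [map_pow, ht, zero_pow (hegpos v₀).ne']
      rw [heq, hfx] at h1
      exact hx h1

end

end Pool.C1
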