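import Pool.Agent.Work.MP_dcf6a6_c1.Interface

/-! Elementary facts on solutions. -/

namespace Pool.C1

open Polynomial

theorem coprime_iff (f g : ℂ[X]) : IsCoprime f g ↔ ∀ t : ℂ, f.eval t = 0 → g.eval t ≠ 0 := by
  rw [isCoprime_iff_aeval_ne_zero_of_isAlgClosed ℂ ℂ f g]
  constructor
  · intro h t ht
    rcases h t with h | h
    · rw [coe_aeval_eq_eval] at h; exact absurd ht h
    · rwa [coe_aeval_eq_eval] at h
  · intro h t
    rw [coe_aeval_eq_eval]
    by_cases ht : f.eval t = 0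
    · exact Or.inr (h t ht)
    · exact Or.inl ht

section

variable {J B : Type} [Fintype J] [Fintype B] [DecidableEq J] [DecidableEq B] (D : BData J B)

theorem BData.det_ne {b b' : B} (h : b ≠ b') : D.det b b' ≠ 0 :=
  sub_ne_zero.mpr (D.indep b b' h)

/-- two different blocks -/
theorem BData.exists_pair (D : BData J B) : ∃ b₁ b₂ : B, b₁ ≠ b₂ :=
  Fintype.exists_pair_of_one_lt_card (lt_of_lt_of_le (by norm_num) D.three)

theorem BData.exists_section (D : BData J B) : ∃ s : B → J, ∀ b, D.bl (s b) = b :=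
  ⟨fun b => (D.bl_surj b).choose, fun b => (D.bl_surj b).choose_spec⟩

theorem BData.uu_ne (τ : J → ℂ[X]) (h : ∀ j, τ j ≠ 0) (b : B) : D.uu τ b ≠ 0 :=
  Finset.prod_ne_zero_iff.mpr fun j _ => pow_ne_zero _ (h j)

theorem BData.uu_natDegree (τ : J → ℂ[X]) (h : ∀ j, τ j ≠ 0) (b : B) :
    (D.uu τ b).natDegree = ∑ j with D.bl j = b, D.l j * (τ j).natDegree := by
  unfold BData.uu
  rw [natDegree_prod _ _ fun j _ => pow_ne_zero _ (h j)]
  exact Finset.sum_congr rfl fun j _ => natDegree_pow _ _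

theorem BData.eval_uu (τ : J → ℂ[X]) (b : B) (t : ℂ) :
    (D.uu τ b).eval t = ∏ j with D.bl j = b, (τ j).eval t ^ D.l j := by
  unfold BData.uu
  rw [eval_prod]
  exact Finset.prod_congr rfl fun j _ => eval_pow _

/-! ### the derivative `du` -/

theorem BData.du_add (τ σ σ' : J → ℂ[X]) (b : B) :
    D.du τ (fun j => σ j + σ' j) b = D.du τ σ b + D.du τ σ' b := by
  unfold BData.du
  rw [← Finset.sum_add_distrib]
  exact Finset.sum_congr rfl fun j _ => by ring

theorem BData.du_smul (τ σ : J → ℂ[X]) (p : ℂ[X]) (b : B) :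
    D.du τ (fun j => p * σ j) b = p * D.du τ σ b := by
  unfold BData.du
  rw [Finset.mul_sum]
  exact Finset.sum_congr rfl fun j _ => by ring

theorem BData.uu_split (τ : J → ℂ[X]) (b : B) (j : J) (hj : D.bl j = b) :
    D.uu τ b = τ j ^ (D.l j - 1) * τ j *
      ∏ i ∈ (Finset.univ.filter fun i => D.bl i = b).erase j, τ i ^ D.l i := by
  unfold BData.uu
  rw [← Finset.mul_prod_erase _ _ (Finset.mem_filter.mpr ⟨Finset.mem_univ j, hj⟩), ← pow_succ,
    Nat.sub_add_cancel (D.l_pos j)]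

theorem BData.du_torus (τ : J → ℂ[X]) (e : J → ℂ) (b : B) :
    D.du τ (fun j => C (e j) * τ j) b =
      C (∑ j with D.bl j = b, (D.l j : ℂ) * e j) * D.uu τ b := by
  unfold BData.du
  rw [map_sum, Finset.sum_mul]
  refine Finset.sum_congr rfl fun j hj => ?_
  rw [D.uu_split τ b j (Finset.mem_filter.mp hj).2, C_mul]
  ring

theorem BData.du_derivative (τ : J → ℂ[X]) (b : B) :
    D.du τ (fun j => derivative (τ j)) b = derivative (D.uu τ b) := by
  unfold BData.du BData.uu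
  rw [derivative_prod_finset]
  refine Finset.sum_congr rfl fun j _ => ?_
  rw [derivative_pow]
  simp only [C_eq_natCast]
  ring

end

section

variable {J B : Type} [Fintype J] [Fintype B] [DecidableEq J] [DecidableEq B] {D : BData J B}
  {c : J → ℕ} {d : ℕ} {τ : J → ℂ[X]} {u v : ℂ[X]}

theorem BData.IsSol.uu_natDegree (h : D.IsSol c d τ u v) (b : B) : (D.uu τ b).natDegree = d := by
  rw [D.uu_natDegree τ h.ne b, ← h.bal b]
  exact Finset.sum_congr rfl fun j _ => by rw [h.deg j]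

/-- `u` in terms of two of the `uu τ b` -/
theorem BData.IsSol.u_eq (h : D.IsSol c d τ u v) {b₁ b₂ : B} (hb : b₁ ≠ b₂) :
    u = C (D.det b₁ b₂)⁻¹ * (C (D.be b₂) * D.uu τ b₁ - C (D.be b₁) * D.uu τ b₂) := by
  have h1 : C (D.det b₁ b₂)⁻¹ * C (D.det b₁ b₂) = (1 : ℂ[X]) := by
    rw [← C_mul, inv_mul_cancel₀ (D.det_ne hb), C_1]
  rw [h.rel, h.rel]
  have h2 : C (D.be b₂) * (C (D.al b₁) * u + C (D.be b₁) * v) -
      C (D.be b₁) * (C (D.al b₂) * u + C (D.be b₂) * v) = C (D.det b₁ b₂) * u := by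
    unfold BData.det
    simp only [C_sub, C_mul]
    ring
  rw [h2, ← mul_assoc, h1, one_mul]

theorem BData.IsSol.v_eq (h : D.IsSol c d τ u v) {b₁ b₂ : B} (hb : b₁ ≠ b₂) :
    v = C (D.det b₁ b₂)⁻¹ * (C (D.al b₁) * D.uu τ b₂ - C (D.al b₂) * D.uu τ b₁) := by
  have h1 : C (D.det b₁ b₂)⁻¹ * C (D.det b₁ b₂) = (1 : ℂ[X]) := by
    rw [← C_mul, inv_mul_cancel₀ (D.det_ne hb), C_1]
  rw [h.rel, h.rel]
  have h2 : C (D.al b₁) * (C (D.al b₂) * u + C (D.be b₂) * v) -
      C (D.al b₂) * (C (D.al b₁) * u + C (D.be b₁) * v) = C (D.det b₁ b₂) * v := by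
    unfold BData.det
    simp only [C_sub, C_mul]
    ring
  rw [h2, ← mul_assoc, h1, one_mul]

theorem BData.IsSol.u_natDegree (h : D.IsSol c d τ u v) : u.natDegree ≤ d := by
  obtain ⟨b₁, b₂, hb⟩ := D.exists_pair
  rw [h.u_eq hb]
  refine (natDegree_C_mul_le _ _).trans ((natDegree_sub_le _ _).trans (max_le ?_ ?_)) <;>
  exact (natDegree_C_mul_le _ _).trans (h.uu_natDegree _).le

theorem BData.IsSol.v_natDegree (h : D.IsSol c d τ u v) : v.natDegree ≤ d := by
  obtain ⟨b₁, b₂, hb⟩ := D.exists_pair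
  rw [h.v_eq hb]
  refine (natDegree_C_mul_le _ _).trans ((natDegree_sub_le _ _).trans (max_le ?_ ?_)) <;>
  exact (natDegree_C_mul_le _ _).trans (h.uu_natDegree _).le

/-- the leading coefficients -/
theorem BData.IsSol.coeff_d_ne (h : D.IsSol c d τ u v) (b : B) :
    D.al b * u.coeff d + D.be b * v.coeff d ≠ 0 := by
  have h1 : (D.uu τ b).coeff d ≠ 0 := by
    rw [← h.uu_natDegree b]
    exact leadingCoeff_ne_zero.mpr (D.uu_ne τ h.ne b)
  rwa [h.rel b, coeff_add, coeff_C_mul, coeff_C_mul] at h1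

/-- `u` and `v` have no common root -/
theorem BData.IsSol.no_common_root (h : D.IsSol c d τ u v) (t : ℂ) (hu : u.eval t = 0) :
    v.eval t ≠ 0 := by
  intro hv
  obtain ⟨b₁, b₂, hb⟩ := D.exists_pair
  have h1 : ∀ b, ∃ j, D.bl j = b ∧ (τ j).eval t = 0 := by
    intro b
    have h2 := congrArg (eval t) (h.rel b)
    rw [eval_add, eval_mul, eval_mul, hu, hv, mul_zero, mul_zero, add_zero, D.eval_uu,
      Finset.prod_eq_zero_iff] at h2
    obtain ⟨j, hj, hj2⟩ := h2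
    exact ⟨j, (Finset.mem_filter.mp hj).2, pow_eq_zero_iff (D.l_pos j).ne' |>.mp hj2⟩
  obtain ⟨j₁, hj₁, e₁⟩ := h1 b₁
  obtain ⟨j₂, hj₂, e₂⟩ := h1 b₂
  have hne : j₁ ≠ j₂ := by
    rintro rfl
    exact hb (hj₁.symm.trans hj₂)
  exact (coprime_iff _ _).mp (h.cop j₁ j₂ hne) t e₁ e₂

end

end Pool.C1
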