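import Pool.Agent.Work.MP_dcf6a6_mg.Defs

/-!
# Definitions for the theorem on MP_dcf6a6_ag: log Fano varieties with a torus action of
# complexity one (trinomial Cox rings)
-/

open CategoryTheory AlgebraicGeometry

namespace Pool.C1

noncomputable section

/-- Variables `T_j` (`j : J`) with exponents `l j`, distributed over the blocks `bl j : B`, at least
three blocks; the columns `(al b, be b)` of the matrix `A` are pairwise linearly independent. -/
structure BData (J B : Type) [Fintype J] [Fintype B] [DecidableEq J] [DecidableEq B] where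
  /-- the block of `T_j` -/
  bl : J → B
  /-- the exponent of `T_j` -/
  l : J → ℕ
  /-- first row of the matrix `A` -/
  al : B → ℂ
  /-- second row of the matrix `A` -/
  be : B → ℂ
  bl_surj : Function.Surjective bl
  l_pos : ∀ j, 0 < l j
  indep : ∀ b b', b ≠ b' → al b * be b' ≠ al b' * be b
  three : 3 ≤ Fintype.card B

section

variable {J B : Type} [Fintype J] [Fintype B] [DecidableEq J] [DecidableEq B]

/-- the minor of the columns `b`, `b'` of `A` -/
def BData.det (D : BData J B) (b b' : B) : ℂ := D.al b * D.be b' - D.al b' * D.be b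

/-- For every choice `s b` of a variable in every block the exponents `l (s b)` form a platonic
tuple: `∑_b (1 - 1 / l (s b)) < 2`, i.e. up to order they are `(x, y, 1, …, 1)`,
`(n, 2, 2, 1, …, 1)`, `(3, 3, 2, 1, …, 1)`, `(4, 3, 2, 1, …, 1)` or `(5, 3, 2, 1, …, 1)`. -/
def BData.Platonic (D : BData J B) : Prop :=
  ∀ s : B → J, (∀ b, D.bl (s b) = b) → ∑ b, (1 - 1 / (D.l (s b) : ℚ)) < 2

/-- the monomial `T_b = ∏_{bl j = b} T_j ^ l_j` -/
def BData.mono (D : BData J B) (K : Type) (b : B) : MvPolynomial (J ⊕ K) ℂ :=
  ∏ j with D.bl j = b, MvPolynomial.X (Sum.inl j) ^ D.l j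

/-- the trinomial of the blocks `b₀, b₁, b₂`: the determinant of the matrix with the columns
`(al b_i, be b_i, T_{b_i})`. -/
def BData.rel (D : BData J B) (K : Type) (b₀ b₁ b₂ : B) : MvPolynomial (J ⊕ K) ℂ :=
  MvPolynomial.C (D.det b₁ b₂) * D.mono K b₀ + MvPolynomial.C (D.det b₂ b₀) * D.mono K b₁ +
    MvPolynomial.C (D.det b₀ b₁) * D.mono K b₂

end

/-- The data of a trinomial Cox ring graded by the group `H`: exponents and matrix as in `BData`
(platonic), further variables `S_k` (`k : K`), degrees `deg` of the variables in `H` such that all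
monomials `T_b` have the same degree `dT`. -/
structure TriData (J K B H : Type) [Fintype J] [Fintype K] [Fintype B]
    [DecidableEq J] [DecidableEq K] [DecidableEq B] [AddCommGroup H] extends BData J B where
  /-- the degrees of the variables -/
  deg : J ⊕ K → H
  /-- the degree of the trinomials -/
  dT : H
  homog : ∀ b, ∑ j with bl j = b, l j • deg (Sum.inl j) = dT
  platonic : toBData.Platonic
  /-- all degrees lie in an open half space -/
  pointed : ∃ d : H →+ ℤ, ∀ v, 0 < d (deg v)
  /-- any all but one of the degrees generate the grading group -/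
  generated : ∀ v, AddSubgroup.closure (deg '' {v}ᶜ) = ⊤

variable {J K B H : Type} [Fintype J] [Fintype K] [Fintype B]
    [DecidableEq J] [DecidableEq K] [DecidableEq B] [AddCommGroup H]

/-- `ℛ` is an `H`-grading of the `ℂ`-algebra `R`, presented as `ℂ[T_j, S_k]` modulo all the
trinomials, with the variable `v` in degree `deg v`. -/
structure TriData.Pres [DecidableEq H] (D : TriData J K B H) (R : Type) [CommRing R]
    [Algebra ℂ R] (ℛ : H → Submodule ℂ R) [GradedAlgebra ℛ] where
  /-- the presentation map -/
  π : MvPolynomial (J ⊕ K) ℂ →ₐ[ℂ] R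
  surj : Function.Surjective π
  graded : ∀ v, π (MvPolynomial.X v) ∈ ℛ (D.deg v)
  ker : RingHom.ker π = Ideal.span {r | ∃ b₀ b₁ b₂, r = D.rel K b₀ b₁ b₂}

/-- `L` lies in the relative interior of the moving cone: for every variable `v` some positive
multiple of `L` is a combination of the degrees of all the other variables with positive integral
coefficients. -/
def TriData.MovingInterior (D : TriData J K B H) (L : H) : Prop :=
  ∀ v, ∃ n : ℕ, 0 < n ∧ ∃ e : J ⊕ K → ℕ, e v = 0 ∧ (∀ v', v' ≠ v → 0 < e v') ∧
    ∑ v', e v' • D.deg v' = n • L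

end

end Pool.C1
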