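import Pool.Agent.Work.MP_dcf6a6_c1.Defs
import Pool.Agent.Work.MP_dcf6a6_tv.Interface

/-!
# Block statements for the complexity-one theorem on MP_dcf6a6_ag

Proofs: see `BLUEPRINT.md`.
-/

open CategoryTheory AlgebraicGeometry Polynomial Topology

namespace Pool.C1

noncomputable section

/-! ## Polynomial solutions -/

section

variable {J B : Type} [Fintype J] [Fintype B] [DecidableEq J] [DecidableEq B] (D : BData J B)

/-- `∏_{bl j = b} τ_j ^ l_j` -/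
def BData.uu (τ : J → ℂ[X]) (b : B) : ℂ[X] := ∏ j with D.bl j = b, τ j ^ D.l j

/-- the derivative of `uu` at `τ` in the direction `σ` -/
def BData.du (τ σ : J → ℂ[X]) (b : B) : ℂ[X] :=
  ∑ j with D.bl j = b, C (D.l j : ℂ) * τ j ^ (D.l j - 1) * σ j *
    ∏ i ∈ (Finset.univ.filter fun i => D.bl i = b).erase j, τ i ^ D.l i

/-- `(τ, u, v)` is a solution of type `(c, d)`: `deg τ_j = c_j`, the `τ_j` are pairwise coprime and
`∏_{bl j = b} τ_j ^ l_j = al_b u + be_b v` is of degree `d` for all `b`. -/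
structure BData.IsSol (c : J → ℕ) (d : ℕ) (τ : J → ℂ[X]) (u v : ℂ[X]) : Prop where
  deg : ∀ j, (τ j).natDegree = c j
  ne : ∀ j, τ j ≠ 0
  bal : ∀ b, ∑ j with D.bl j = b, D.l j * c j = d
  rel : ∀ b, D.uu τ b = C (D.al b) * u + C (D.be b) * v
  cop : ∀ i j, i ≠ j → IsCoprime (τ i) (τ j)

/-- regularity (unobstructedness) of a solution -/
def BData.Reg (c : J → ℕ) (d : ℕ) (τ : J → ℂ[X]) : Prop :=
  ∀ P : B → ℂ[X], (∀ b, (P b).natDegree ≤ d) →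
    ∃ (σ : J → ℂ[X]) (p q : ℂ[X]), (∀ j, (σ j).natDegree ≤ c j) ∧ p.natDegree ≤ d ∧
      q.natDegree ≤ d ∧ ∀ b, D.du τ σ b = C (D.al b) * p + C (D.be b) * q + P b

/-- regularity relative to the value at `0` -/
def BData.RG0 (c : J → ℕ) (d : ℕ) (τ : J → ℂ[X]) : Prop :=
  ∀ P : B → ℂ[X], (∀ b, (P b).natDegree ≤ d ∧ (P b).coeff 0 = 0) →
    ∃ (σ : J → ℂ[X]) (p q : ℂ[X]), (∀ j, (σ j).natDegree ≤ c j ∧ (σ j).coeff 0 = 0) ∧
      (p.natDegree ≤ d ∧ p.coeff 0 = 0) ∧ (q.natDegree ≤ d ∧ q.coeff 0 = 0) ∧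
      ∀ b, D.du τ σ b = C (D.al b) * p + C (D.be b) * q + P b

/-- the value of `(u : v)` at infinity avoids `∞` and the finite set `Bad` -/
def GoodInf (Bad : Finset ℂ) (d : ℕ) (u v : ℂ[X]) : Prop :=
  v.coeff d ≠ 0 ∧ ∀ q ∈ Bad, u.coeff d ≠ q * v.coeff d

/-- at `0` the value of `(u : v)` is `q`, unramified, and the `τ_j` do not vanish -/
def GoodZero (q : ℂ) (τ : J → ℂ[X]) (u v : ℂ[X]) : Prop :=
  (∀ j, (τ j).coeff 0 ≠ 0) ∧ v.coeff 0 ≠ 0 ∧ u.coeff 0 = q * v.coeff 0 ∧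
    (u - C q * v).coeff 1 ≠ 0

/-- polynomial with coefficients `a`, the part above degree `c` scaled by powers of `ε`
(chart of the first component) -/
def lo {n : ℕ} (c : ℕ) (ε : ℂ) (a : Fin (n + 1) → ℂ) : ℂ[X] :=
  ∑ k : Fin (n + 1), C (a k * ε ^ ((k : ℕ) - c)) * X ^ (k : ℕ)

/-- polynomial with coefficients `a`, the part below degree `c` scaled by powers of `ε`
(chart of the second component) -/
def hi {n : ℕ} (c : ℕ) (ε : ℂ) (a : Fin (n + 1) → ℂ) : ℂ[X] :=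
  ∑ k : Fin (n + 1), C (a k * ε ^ (c - (k : ℕ))) * X ^ (k : ℕ)

/-- the coefficient vector of `f + X ^ c * (f' - f' 0)` -/
def gl (c c' : ℕ) (f f' : ℂ[X]) : Fin (c + c' + 1) → ℂ :=
  fun k => if (k : ℕ) ≤ c then f.coeff k else f'.coeff ((k : ℕ) - c)

/-- the space of coefficients of the unknowns `(τ, u, v)` -/
abbrev GSp (c c' : J → ℕ) (d d' : ℕ) : Type :=
  ((j : J) → Fin (c j + c' j + 1) → ℂ) × (Fin (d + d' + 1) → ℂ) × (Fin (d + d' + 1) → ℂ)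

/-- the equations in the first chart -/
def BData.eqLo (c c' : J → ℕ) (d d' : ℕ) (e : GSp c c' d d') (ε : ℂ) (b : B) : ℂ[X] :=
  D.uu (fun j => lo (c j) ε (e.1 j)) b - C (D.al b) * lo d ε e.2.1 - C (D.be b) * lo d ε e.2.2

/-- the equations in the second chart -/
def BData.eqHi (c c' : J → ℕ) (d d' : ℕ) (e : GSp c c' d d') (ε : ℂ) (b : B) : ℂ[X] :=
  D.uu (fun j => hi (c j) ε (e.1 j)) b - C (D.al b) * hi d ε e.2.1 - C (D.be b) * hi d ε e.2.2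

/-- the (rescaled) coefficients of the equations -/
def BData.EE (c c' : J → ℕ) (d d' : ℕ) (x : GSp c c' d d' × ℂ) : B → Fin (d + d' + 1) → ℂ :=
  fun b k => if (k : ℕ) ≤ d then (D.eqLo c c' d d' x.1 x.2 b).coeff k
    else (D.eqHi c c' d d' x.1 x.2 b).coeff k

/-- the derivative of `eqLo` in the direction `δ` -/
def BData.deLo (c c' : J → ℕ) (d d' : ℕ) (e δ : GSp c c' d d') (ε : ℂ) (b : B) : ℂ[X] :=
  D.du (fun j => lo (c j) ε (e.1 j)) (fun j => lo (c j) ε (δ.1 j)) b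
    - C (D.al b) * lo d ε δ.2.1 - C (D.be b) * lo d ε δ.2.2

/-- the derivative of `eqHi` in the direction `δ` -/
def BData.deHi (c c' : J → ℕ) (d d' : ℕ) (e δ : GSp c c' d d') (ε : ℂ) (b : B) : ℂ[X] :=
  D.du (fun j => hi (c j) ε (e.1 j)) (fun j => hi (c j) ε (δ.1 j)) b
    - C (D.al b) * hi d ε δ.2.1 - C (D.be b) * hi d ε δ.2.2

/-- the derivative of `EE` in the direction `(δ, 0)` -/
def BData.DEE (c c' : J → ℕ) (d d' : ℕ) (e : GSp c c' d d') (ε : ℂ) (δ : GSp c c' d d') :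
    B → Fin (d + d' + 1) → ℂ :=
  fun b k => if (k : ℕ) ≤ d then (D.deLo c c' d d' e δ ε b).coeff k
    else (D.deHi c c' d d' e δ ε b).coeff k

end

/-! ## Gluing -/

/-- IFT: implicit function theorem, with openness of surjectivity of the partial derivative. -/
def Stmt_IFT : Prop :=
  ∀ {E F : Type} [NormedAddCommGroup E] [NormedSpace ℂ E] [FiniteDimensional ℂ E]
    [NormedAddCommGroup F] [NormedSpace ℂ F] [FiniteDimensional ℂ F]
    (f : E × ℂ → F) (e₀ : E) (V : Set (E × ℂ)), ContDiff ℂ 1 f → f (e₀, 0) = 0 →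
    (∀ w, ∃ δ, fderiv ℂ f (e₀, 0) (δ, 0) = w) → V ∈ 𝓝 ((e₀, 0) : E × ℂ) →
    ∃ (e : E) (ε : ℂ), ε ≠ 0 ∧ (e, ε) ∈ V ∧ f (e, ε) = 0 ∧
      ∀ w, ∃ δ, fderiv ℂ f (e, ε) (δ, 0) = w

/-- CALC: smoothness and derivative of the equations. -/
def Stmt_CALC : Prop :=
  ∀ {J B : Type} [Fintype J] [Fintype B] [DecidableEq J] [DecidableEq B] (D : BData J B)
    (c c' : J → ℕ) (d d' : ℕ), ContDiff ℂ 1 (D.EE c c' d d') ∧
      ∀ (e δ : GSp c c' d d') (ε : ℂ),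
        fderiv ℂ (D.EE c c' d d') (e, ε) (δ, 0) = D.DEE c c' d d' e ε δ

/-- RG0: regularity relative to the value at an unramified point. -/
def Stmt_RG0 : Prop :=
  ∀ {J B : Type} [Fintype J] [Fintype B] [DecidableEq J] [DecidableEq B] (D : BData J B)
    (c : J → ℕ) (d : ℕ) (τ : J → ℂ[X]) (u v : ℂ[X]) (q : ℂ),
    D.IsSol c d τ u v → D.Reg c d τ → GoodZero q τ u v → D.RG0 c d τ

/-- LIN: the base point solves the equations at `ε = 0` and the linearisation is surjective. -/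
def Stmt_LIN : Prop :=
  ∀ {J B : Type} [Fintype J] [Fintype B] [DecidableEq J] [DecidableEq B] (D : BData J B)
    (c c' : J → ℕ) (d d' : ℕ) (τ τ' : J → ℂ[X]) (u v u' v' : ℂ[X]),
    D.IsSol c d τ u v → D.Reg c d τ → D.IsSol c' d' τ' u' v' → D.RG0 c' d' τ' →
    (∀ j, (τ j).coeff (c j) = (τ' j).coeff 0) → u.coeff d = u'.coeff 0 →
    v.coeff d = v'.coeff 0 →
    D.EE c c' d d' ((fun j => gl (c j) (c' j) (τ j) (τ' j), gl d d' u u', gl d d' v v'), 0) = 0 ∧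
    ∀ w, ∃ δ, D.DEE c c' d d'
      (fun j => gl (c j) (c' j) (τ j) (τ' j), gl d d' u u', gl d d' v v') 0 δ = w

/-- GLA: for `ε ≠ 0` the rescaled equations are the equations. -/
def Stmt_GLA : Prop :=
  ∀ {J B : Type} [Fintype J] [Fintype B] [DecidableEq J] [DecidableEq B] (D : BData J B)
    (c c' : J → ℕ) (d d' : ℕ) (e : GSp c c' d d') (ε : ℂ), ε ≠ 0 →
    (∀ b, ∑ j with D.bl j = b, D.l j * c j = d) →
    (∀ b, ∑ j with D.bl j = b, D.l j * c' j = d') →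
    (D.EE c c' d d' (e, ε) = 0 → ∀ b, D.uu (fun j => lo (c j) ε (e.1 j)) b =
      C (D.al b) * lo d ε e.2.1 + C (D.be b) * lo d ε e.2.2) ∧
    ((∀ w, ∃ δ, D.DEE c c' d d' e ε δ = w) →
      D.Reg (fun j => c j + c' j) (d + d') (fun j => lo (c j) ε (e.1 j)))

/-- COPR: coprimality is preserved under smoothing of the node. -/
def Stmt_COPR : Prop :=
  ∀ (c c' m m' : ℕ) (f f' g g' : ℂ[X]), f.natDegree = c → f'.natDegree = c' →
    g.natDegree = m → g'.natDegree = m' → f'.coeff 0 ≠ 0 → g'.coeff 0 ≠ 0 →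
    f.coeff c = f'.coeff 0 → g.coeff m = g'.coeff 0 → IsCoprime f g → IsCoprime f' g' →
    ∀ᶠ x : ((Fin (c + c' + 1) → ℂ) × (Fin (m + m' + 1) → ℂ)) × ℂ in
      𝓝 ((gl c c' f f', gl m m' g g'), 0),
      x.2 ≠ 0 → IsCoprime (lo c x.2 x.1.1) (lo m x.2 x.1.2)

/-- SCAL: rescaling of a solution. -/
def Stmt_SCAL : Prop :=
  ∀ {J B : Type} [Fintype J] [Fintype B] [DecidableEq J] [DecidableEq B] (D : BData J B)
    (c : J → ℕ) (d : ℕ) (τ : J → ℂ[X]) (u v : ℂ[X]) (κ : J → ℂ) (μ : ℂ),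
    D.IsSol c d τ u v → (∀ j, κ j ≠ 0) → (∀ b, ∏ j with D.bl j = b, κ j ^ D.l j = μ) →
    D.IsSol c d (fun j => C (κ j) * τ j) (C μ * u) (C μ * v) ∧
      (D.Reg c d τ → D.Reg c d (fun j => C (κ j) * τ j))

/-- GLUE: gluing of two regular solutions. -/
def Stmt_GLUE : Prop :=
  ∀ {J B : Type} [Fintype J] [Fintype B] [DecidableEq J] [DecidableEq B] (D : BData J B)
    (Bad : Finset ℂ) (q : ℂ) (c c' : J → ℕ) (d d' : ℕ) (τ τ' : J → ℂ[X]) (u v u' v' : ℂ[X]),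
    D.IsSol c d τ u v → D.Reg c d τ → v.coeff d ≠ 0 → u.coeff d = q * v.coeff d →
    D.IsSol c' d' τ' u' v' → D.Reg c' d' τ' → GoodZero q τ' u' v' → GoodInf Bad d' u' v' →
    ∃ (τ'' : J → ℂ[X]) (u'' v'' : ℂ[X]),
      D.IsSol (fun j => c j + c' j) (d + d') τ'' u'' v'' ∧
      D.Reg (fun j => c j + c' j) (d + d') τ'' ∧ GoodInf Bad (d + d') u'' v''

/-! ## Change of coordinates -/

/-- TRANS: translation of a solution. -/
def Stmt_TRANS : Prop :=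
  ∀ {J B : Type} [Fintype J] [Fintype B] [DecidableEq J] [DecidableEq B] (D : BData J B)
    (c : J → ℕ) (d : ℕ) (τ : J → ℂ[X]) (u v : ℂ[X]) (r : ℂ), D.IsSol c d τ u v →
    D.IsSol c d (fun j => (τ j).comp (X + C r)) (u.comp (X + C r)) (v.comp (X + C r)) ∧
      (D.Reg c d τ → D.Reg c d (fun j => (τ j).comp (X + C r)))

/-- REV: the coordinate change `t ↦ 1 / t`. -/
def Stmt_REV : Prop :=
  ∀ {J B : Type} [Fintype J] [Fintype B] [DecidableEq J] [DecidableEq B] (D : BData J B)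
    (c : J → ℕ) (d : ℕ) (τ : J → ℂ[X]) (u v : ℂ[X]), D.IsSol c d τ u v →
    (∀ j, (τ j).coeff 0 ≠ 0) →
    D.IsSol c d (fun j => (τ j).reflect (c j)) (u.reflect d) (v.reflect d) ∧
      (D.Reg c d τ → D.Reg c d (fun j => (τ j).reflect (c j)))

/-- COORD: coordinates such that the value at `0` is the general value `q` and the value at
infinity is general. -/
def Stmt_COORD : Prop :=
  ∀ {J B : Type} [Fintype J] [Fintype B] [DecidableEq J] [DecidableEq B] (D : BData J B)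
    (c : J → ℕ) (d : ℕ) (τ : J → ℂ[X]) (u v : ℂ[X]), 0 < d → D.IsSol c d τ u v →
    D.Reg c d τ → ∃ S : Finset ℂ, ∀ q, q ∉ S → ∀ Bad : Finset ℂ,
      ∃ (τ' : J → ℂ[X]) (u' v' : ℂ[X]), D.IsSol c d τ' u' v' ∧ D.Reg c d τ' ∧
        GoodZero q τ' u' v' ∧ GoodInf Bad d u' v'

/-! ## Basic solutions -/

/-- Data of a solution of the trinomial equation with Riemann-Hurwitz equality. -/
def Kl (a : Fin 3 → ℕ) : Prop :=
  ∃ (d : ℕ) (c : Fin 3 → ℕ) (e : Fin 3 → ℂ) (A : Fin 3 → ℂ[X]),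
    (∀ i, 0 < c i) ∧ (∀ i, a i * c i = d) ∧ ∑ i, c i = d + 2 ∧ (∀ i, e i ≠ 0) ∧
    (∀ i, A i ≠ 0 ∧ (A i).natDegree = c i) ∧ (∀ i j, i ≠ j → IsCoprime (A i) (A j)) ∧
    ∑ i, C (e i) * A i ^ a i = 0

/-- Regular solutions of the trinomial equation with the coefficients `κ`. -/
def Tri (a : Fin 3 → ℕ) (κ : Fin 3 → ℂ) : Prop :=
  ∃ (d : ℕ) (c : Fin 3 → ℕ) (τ : Fin 3 → ℂ[X]), 0 < d ∧ (∀ i, a i * c i = d) ∧
    (∀ i, τ i ≠ 0 ∧ (τ i).natDegree = c i) ∧ (∀ i j, i ≠ j → IsCoprime (τ i) (τ j)) ∧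
    ∑ i, C (κ i) * τ i ^ a i = 0 ∧
    ∀ P : ℂ[X], P.natDegree ≤ d → ∃ σ : Fin 3 → ℂ[X], (∀ i, (σ i).natDegree ≤ c i) ∧
      ∑ i, C (κ i * a i) * τ i ^ (a i - 1) * σ i = P

/-- KS: regularity of the solutions with Riemann-Hurwitz equality. -/
def Stmt_KS : Prop :=
  ∀ (a c : Fin 3 → ℕ) (d : ℕ) (κ : Fin 3 → ℂ) (τ : Fin 3 → ℂ[X]), (∀ i, 0 < c i) →
    (∀ i, a i * c i = d) → ∑ i, c i = d + 2 → (∀ i, κ i ≠ 0) →
    (∀ i, τ i ≠ 0 ∧ (τ i).natDegree = c i) → (∀ i j, i ≠ j → IsCoprime (τ i) (τ j)) →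
    ∑ i, C (κ i) * τ i ^ a i = 0 →
    ∀ P : ℂ[X], P.natDegree ≤ d → ∃ σ : Fin 3 → ℂ[X], (∀ i, (σ i).natDegree ≤ c i) ∧
      ∑ i, C (κ i * a i) * τ i ^ (a i - 1) * σ i = P

/-- TONE: one exponent is one. -/
def Stmt_TONE : Prop :=
  ∀ (x y : ℕ) (κ : Fin 3 → ℂ), 0 < x → 0 < y → (∀ i, κ i ≠ 0) → Tri ![1, x, y] κ

/-- KDIH: dihedral solutions. -/
def Stmt_KDIH : Prop := ∀ n : ℕ, 2 ≤ n → Kl ![2, 2, n]

/-- KTET: tetrahedral solution. -/
def Stmt_KTET : Prop := Kl ![2, 3, 3]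

/-- KOCT: octahedral solution. -/
def Stmt_KOCT : Prop := Kl ![2, 3, 4]

/-- KICO: icosahedral solution. -/
def Stmt_KICO : Prop := Kl ![2, 3, 5]

/-- TRIPLE: regular solutions for all platonic triples. -/
def Stmt_TRIPLE : Prop :=
  ∀ (a : Fin 3 → ℕ) (κ : Fin 3 → ℂ), (∀ i, 0 < a i) → ∑ i, (1 - 1 / (a i : ℚ)) < 2 →
    (∀ i, κ i ≠ 0) → Tri a κ

/-- LINB: families satisfying the trinomial relations. -/
def Stmt_LINB : Prop :=
  ∀ {J B : Type} [Fintype J] [Fintype B] [DecidableEq J] [DecidableEq B] (D : BData J B)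
    {M : Type} [AddCommGroup M] [Module ℂ M] (t : B → M) (b₁ b₂ : B), b₁ ≠ b₂ →
    (∀ b, D.det b₁ b₂ • t b + D.det b₂ b • t b₁ + D.det b b₁ • t b₂ = 0) →
    ∀ b, t b = D.al b • ((D.det b₁ b₂)⁻¹ • (D.be b₂ • t b₁ - D.be b₁ • t b₂)) +
      D.be b • ((D.det b₁ b₂)⁻¹ • (D.al b₁ • t b₂ - D.al b₂ • t b₁))

/-- PICK: all blocks with nontrivial exponent are among three. -/
def Stmt_PICK : Prop :=
  ∀ {B : Type} [Fintype B] [DecidableEq B] (f : B → ℕ), 3 ≤ Fintype.card B →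
    (∀ b, 0 < f b) → ∑ b, (1 - 1 / (f b : ℚ)) < 2 →
    ∃ e : Fin 3 → B, Function.Injective e ∧ (∀ b, b ∉ Set.range e → f b = 1) ∧
      ∑ i, (1 - 1 / (f (e i) : ℚ)) < 2

/-- BAS3: the basic solution for three blocks with one variable each. -/
def Stmt_BAS3 : Prop :=
  ∀ (D : BData (Fin 3) (Fin 3)), (∀ i, D.bl i = i) → ∑ i, (1 - 1 / (D.l i : ℚ)) < 2 →
    ∃ (d : ℕ) (c : Fin 3 → ℕ) (τ : Fin 3 → ℂ[X]) (u v : ℂ[X]), 0 < d ∧
      (∀ i, D.l i * c i = d) ∧ D.IsSol c d τ u v ∧ D.Reg c d τ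

/-- BASIC: the basic solution of a choice of one variable in every block. -/
def Stmt_BASIC : Prop :=
  ∀ {J B : Type} [Fintype J] [Fintype B] [DecidableEq J] [DecidableEq B] (D : BData J B)
    (s : B → J), (∀ b, D.bl (s b) = b) → ∑ b, (1 - 1 / (D.l (s b) : ℚ)) < 2 →
    ∃ (d : ℕ) (τ : J → ℂ[X]) (u v : ℂ[X]), 0 < d ∧ (∀ b, D.l (s b) ∣ d) ∧
      D.IsSol (fun j => if j = s (D.bl j) then d / D.l j else 0) d τ u v ∧
      D.Reg (fun j => if j = s (D.bl j) then d / D.l j else 0) d τ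

/-- CONST: the constant solution. -/
def Stmt_CONST : Prop :=
  ∀ {J B : Type} [Fintype J] [Fintype B] [DecidableEq J] [DecidableEq B] (D : BData J B)
    (Bad : Finset ℂ), ∃ (τ : J → ℂ[X]) (u v : ℂ[X]), D.IsSol (fun _ => 0) 0 τ u v ∧
      D.Reg (fun _ => 0) 0 τ ∧ GoodInf Bad 0 u v

/-- DEC: every weight vector is, up to a multiple, a combination of the basic ones. -/
def Stmt_DEC : Prop :=
  ∀ {J B : Type} [Fintype J] [Fintype B] [DecidableEq J] [DecidableEq B] (bl : J → B)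
    (l w : J → ℕ) (δ : ℕ) (ds : (B → J) → ℕ), Nonempty B → (∀ j, 0 < l j) → (∀ j, 0 < w j) →
    Function.Surjective bl → (∀ b, ∑ j with bl j = b, l j * w j = δ) →
    (∀ s, (∀ b, bl (s b) = b) → 0 < ds s ∧ ∀ b, l (s b) ∣ ds s) →
    ∃ (N : ℕ) (n : (B → J) → ℕ), 0 < N ∧ (∀ s, ¬ (∀ b, bl (s b) = b) → n s = 0) ∧
      ∀ j, ∑ s, n s * (if j = s (bl j) then ds s / l j else 0) = N * w j

/-- ACC: solutions with degrees proportional to a given weight vector. -/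
def Stmt_ACC : Prop :=
  ∀ {J B : Type} [Fintype J] [Fintype B] [DecidableEq J] [DecidableEq B] (D : BData J B)
    (w : J → ℕ) (δ : ℕ), D.Platonic → (∀ j, 0 < w j) →
    (∀ b, ∑ j with D.bl j = b, D.l j * w j = δ) →
    ∃ (N : ℕ) (τ : J → ℂ[X]) (u v : ℂ[X]), 0 < N ∧
      D.IsSol (fun j => N * w j) (N * δ) τ u v

/-! ## Solutions with prescribed start and end -/

/-- INTG: two binary forms without common zero: `ℂ[X_0, X_1]` is integral over `ℂ[U_0, U_1]`. -/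
def Stmt_INTG : Prop :=
  ∀ (U : Fin 2 → MvPolynomial (Fin 2) ℂ) (e : Fin 2 → ℕ), (∀ i, 0 < e i) →
    (∀ i, (U i).IsHomogeneous (e i)) →
    (∀ p : Fin 2 → ℂ, MvPolynomial.eval p (U 0) = 0 → MvPolynomial.eval p (U 1) = 0 → p = 0) →
    (MvPolynomial.aeval U : MvPolynomial (Fin 2) ℂ →ₐ[ℂ] MvPolynomial (Fin 2) ℂ).toRingHom.IsIntegral

/-- ALGI: two binary forms without common zero are algebraically independent. -/
def Stmt_ALGI : Prop :=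
  ∀ (U : Fin 2 → MvPolynomial (Fin 2) ℂ) (e : Fin 2 → ℕ), (∀ i, 0 < e i) →
    (∀ i, (U i).IsHomogeneous (e i)) →
    (∀ p : Fin 2 → ℂ, MvPolynomial.eval p (U 0) = 0 → MvPolynomial.eval p (U 1) = 0 → p = 0) →
    Function.Injective
      (MvPolynomial.aeval U : MvPolynomial (Fin 2) ℂ →ₐ[ℂ] MvPolynomial (Fin 2) ℂ)

/-- EISE: irreducibility of `Z ^ g + (κ_0 Y_0 ^ g_0 + κ_1 Y_1 ^ g_1)`. -/
def Stmt_EISE : Prop :=
  ∀ (g g₀ g₁ : ℕ) (κ₀ κ₁ : ℂ), 0 < g → 0 < g₀ → 0 < g₁ → κ₀ ≠ 0 → κ₁ ≠ 0 →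
    Irreducible ((X : (MvPolynomial (Fin 2) ℂ)[X]) ^ g +
      C (MvPolynomial.C κ₀ * MvPolynomial.X 0 ^ g₀ + MvPolynomial.C κ₁ * MvPolynomial.X 1 ^ g₁))

/-- KERU: the relations between `U_0, U_1, U_2` are generated by the trinomial. -/
def Stmt_KERU : Prop :=
  ∀ (U : Fin 3 → MvPolynomial (Fin 2) ℂ) (g e : Fin 3 → ℕ) (κ x : Fin 3 → ℂ),
    (∀ i, 0 < g i) → (∀ i, 0 < e i) → (∀ i, (U i).IsHomogeneous (e i)) →
    (∀ i j, i ≠ j → ∀ p : Fin 2 → ℂ, MvPolynomial.eval p (U i) = 0 →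
      MvPolynomial.eval p (U j) = 0 → p = 0) →
    (∀ i, κ i ≠ 0) → ∑ i, MvPolynomial.C (κ i) * U i ^ g i = 0 → ∑ i, κ i * x i ^ g i = 0 →
    ∀ G : MvPolynomial (Fin 3) ℂ, MvPolynomial.aeval U G = 0 → MvPolynomial.eval x G = 0

/-- SURJ: the plane covers the trinomial surface. -/
def Stmt_SURJ : Prop :=
  ∀ (U : Fin 3 → MvPolynomial (Fin 2) ℂ) (g e : Fin 3 → ℕ) (κ x : Fin 3 → ℂ),
    (∀ i, 0 < g i) → (∀ i, 0 < e i) → (∀ i, (U i).IsHomogeneous (e i)) →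
    (∀ i j, i ≠ j → ∀ p : Fin 2 → ℂ, MvPolynomial.eval p (U i) = 0 →
      MvPolynomial.eval p (U j) = 0 → p = 0) →
    (∀ i, κ i ≠ 0) → ∑ i, MvPolynomial.C (κ i) * U i ^ g i = 0 → ∑ i, κ i * x i ^ g i = 0 →
    ∃ p : Fin 2 → ℂ, ∀ i, MvPolynomial.eval p (U i) = x i

section

variable {J B : Type} [Fintype J] [Fintype B] [DecidableEq J] [DecidableEq B] (D : BData J B)

/-- the greatest common divisor of the exponents of a block -/
def BData.g (b : B) : ℕ := (Finset.univ.filter fun j => D.bl j = b).gcd D.l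

/-- the value of the binary form `τ_j` (of degree `c_j`) at `p` -/
def hev (c : J → ℕ) (τ : J → ℂ[X]) (p : Fin 2 → ℂ) (j : J) : ℂ :=
  MvPolynomial.eval p ((τ j).homogenize (c j))

/-- `x` is (the vector of the `T`-coordinates of) a point -/
def BData.IsPt (x : J → ℂ) : Prop :=
  ∃ xu xv : ℂ, ∀ b, ∏ j with D.bl j = b, x j ^ D.l j = D.al b * xu + D.be b * xv

end

/-- HFORM: the binary forms of a solution have pairwise no common zeros. -/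
def Stmt_HFORM : Prop :=
  ∀ {J B : Type} [Fintype J] [Fintype B] [DecidableEq J] [DecidableEq B] (D : BData J B)
    (c : J → ℕ) (d : ℕ) (τ : J → ℂ[X]) (u v : ℂ[X]), D.IsSol c d τ u v →
    (∀ i j, i ≠ j → ∀ p, hev c τ p i = 0 → hev c τ p j = 0 → p = 0) ∧
    ∀ b, ∏ j with D.bl j = b, (τ j).homogenize (c j) ^ D.l j =
      MvPolynomial.C (D.al b) * u.homogenize d + MvPolynomial.C (D.be b) * v.homogenize d

/-- SURB: every point with nonvanishing coordinates has, up to the torus, a preimage. -/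
def Stmt_SURB : Prop :=
  ∀ {J B : Type} [Fintype J] [Fintype B] [DecidableEq J] [DecidableEq B] (D : BData J B)
    (c : J → ℕ) (d : ℕ) (τ : J → ℂ[X]) (u v : ℂ[X]) (x : J → ℂ), D.Platonic →
    D.IsSol c d τ u v → 0 < d → D.IsPt x → (∀ j, x j ≠ 0) →
    ∃ p : Fin 2 → ℂ, ∀ b, ∏ j with D.bl j = b, hev c τ p j ^ (D.l j / D.g b) =
      ∏ j with D.bl j = b, x j ^ (D.l j / D.g b)

/-- SUB: composition with a quadratic map of the plane moving start and end to given points. -/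
def Stmt_SUB : Prop :=
  ∀ {J B : Type} [Fintype J] [Fintype B] [DecidableEq J] [DecidableEq B] (D : BData J B)
    (c : J → ℕ) (d : ℕ) (τ : J → ℂ[X]) (u v : ℂ[X]) (p₀ p₁ : Fin 2 → ℂ), D.IsSol c d τ u v →
    p₀ ≠ 0 → p₁ ≠ 0 → (∀ j, hev c τ p₀ j ≠ 0) → (∀ j, hev c τ p₁ j ≠ 0) →
    ∃ (τ' : J → ℂ[X]) (u' v' : ℂ[X]), D.IsSol (fun j => 2 * c j) (2 * d) τ' u' v' ∧
      ∀ j, (τ' j).coeff 0 = hev c τ p₀ j ∧ (τ' j).leadingCoeff = hev c τ p₁ j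

/-- CYCM: cyclic telescoping on the blocks, with exponents. -/
def Stmt_CYCM : Prop :=
  ∀ {J B : Type} [Fintype J] [DecidableEq J] [DecidableEq B] (bl : J → B) (l : J → ℕ)
    (κ : J → ℂ) (M : ℕ), (∀ j, 0 < l j) → 0 < M → (∀ j, l j ∣ M) → (∀ j, κ j ≠ 0) →
    (∀ b, ∏ j with bl j = b, κ j ^ (l j / (Finset.univ.filter fun j => bl j = b).gcd l) = 1) →
    ∃ (σ : Equiv.Perm J) (c : J → ℂ), (∀ j, bl (σ j) = bl j) ∧ (∀ j, c j ≠ 0) ∧
      ∀ j, (c (σ j) / c j) ^ (M / l j) = κ j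

/-- HERK: interpolation by a monic polynomial with prescribed ramification. -/
def Stmt_HERK : Prop :=
  ∀ {L : Type} [Fintype L] (ρ v : L → ℂ) (k : L → ℕ), Function.Injective ρ →
    (∀ i, ρ i ≠ 0) → (∀ i, 0 < k i) →
    ∃ q : ℂ[X], q.Monic ∧ 0 < q.natDegree ∧ q.eval 0 = 0 ∧
      ∀ i, ∃ r : ℂ[X], q - C (v i) = (X - C (ρ i)) ^ k i * r ∧ r.eval (ρ i) ≠ 0

/-- CORR: correction of start and end. -/
def Stmt_CORR : Prop :=
  ∀ {J B : Type} [Fintype J] [Fintype B] [DecidableEq J] [DecidableEq B] (D : BData J B)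
    (c : J → ℕ) (d : ℕ) (τ : J → ℂ[X]) (u v : ℂ[X]) (x y : J → ℂ), D.IsSol c d τ u v →
    (∀ j, 0 < c j) → (∀ j, x j ≠ 0) → (∀ j, y j ≠ 0) → (∀ j, (τ j).coeff 0 ≠ 0) →
    (∀ b, ∏ j with D.bl j = b, (τ j).coeff 0 ^ (D.l j / D.g b) =
      ∏ j with D.bl j = b, x j ^ (D.l j / D.g b)) →
    (∀ b, ∏ j with D.bl j = b, (τ j).leadingCoeff ^ (D.l j / D.g b) =
      ∏ j with D.bl j = b, y j ^ (D.l j / D.g b)) →
    ∃ (N : ℕ) (τ' : J → ℂ[X]) (u' v' : ℂ[X]), 0 < N ∧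
      D.IsSol (fun j => N * c j) (N * d) τ' u' v' ∧
      ∀ j, (τ' j).coeff 0 = x j ∧ (τ' j).leadingCoeff = y j

/-- TAU: solutions through two given points. -/
def Stmt_TAU : Prop :=
  ∀ {J B : Type} [Fintype J] [Fintype B] [DecidableEq J] [DecidableEq B] (D : BData J B)
    (w : J → ℕ) (δ : ℕ) (x y : J → ℂ), D.Platonic → (∀ j, 0 < w j) →
    (∀ b, ∑ j with D.bl j = b, D.l j * w j = δ) → D.IsPt x → D.IsPt y →
    (∀ j, x j ≠ 0) → (∀ j, y j ≠ 0) →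
    ∃ (N : ℕ) (τ : J → ℂ[X]) (u v : ℂ[X]), 2 ≤ N ∧
      D.IsSol (fun j => N * w j) (N * δ) τ u v ∧
      ∀ j, (τ j).coeff 0 = x j ∧ (τ j).leadingCoeff = y j

/-- SVAR: the free variables. -/
def Stmt_SVAR : Prop :=
  ∀ {K : Type} [Fintype K] [DecidableEq K] (G : ℂ[X]) (u : K → ℕ) (x y : K → ℂ),
    G.eval 0 ≠ 0 → (∀ k, 2 ≤ u k) → (∀ k, x k ≠ 0) → (∀ k, y k ≠ 0) →
    ∃ z : K → ℂ[X], (∀ k, (z k).natDegree = u k ∧ (z k).leadingCoeff = y k ∧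
      (z k).coeff 0 = x k ∧ IsCoprime G (z k)) ∧ ∀ k k', k ≠ k' → IsCoprime (z k) (z k')

/-- CORE: the polynomial solution through `x` and `y` with pairwise coprime coordinates. -/
def Stmt_CORE : Prop :=
  ∀ {J K B : Type} [Fintype J] [Fintype K] [Fintype B]
    [DecidableEq J] [DecidableEq K] [DecidableEq B] (D : BData J B) (w : J ⊕ K → ℕ) (δ : ℕ)
    (x y : J ⊕ K → ℂ), D.Platonic → (∀ v, 0 < w v) →
    (∀ b, ∑ j with D.bl j = b, D.l j * w (Sum.inl j) = δ) →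
    D.IsPt (fun j => x (Sum.inl j)) → D.IsPt (fun j => y (Sum.inl j)) →
    (∀ v, x v ≠ 0) → (∀ v, y v ≠ 0) →
    ∃ (N : ℕ) (τ : J ⊕ K → ℂ[X]) (f g : ℂ[X]), 0 < N ∧
      (∀ v, (τ v).natDegree = N * w v ∧ (τ v).leadingCoeff = y v ∧ (τ v).coeff 0 = x v) ∧
      (∀ b, D.uu (fun j => τ (Sum.inl j)) b = C (D.al b) * f + C (D.be b) * g) ∧
      (∀ v v', v ≠ v' → IsCoprime (τ v) (τ v'))

/-! ## Algebra part -/

/-- FSG: the affine cone minus all but one of the coordinate hyperplanes is smooth. -/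
def Stmt_FSG : Prop :=
  ∀ {J K B : Type} [Fintype J] [Fintype K] [Fintype B]
    [DecidableEq J] [DecidableEq K] [DecidableEq B] (D : BData J B)
    {R : Type} [CommRing R] [Algebra ℂ R] (π : MvPolynomial (J ⊕ K) ℂ →ₐ[ℂ] R),
    Function.Surjective π → RingHom.ker π = Ideal.span {r | ∃ b₀ b₁ b₂, r = D.rel K b₀ b₁ b₂} →
    ∀ (v : J ⊕ K) (e : J ⊕ K → ℕ), e v = 0 → (∀ v', v' ≠ v → 0 < e v') →
      Algebra.FormallySmooth ℂ (Localization.Away (∏ v', π (MvPolynomial.X v') ^ e v'))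

/-- NZG: the variables do not vanish in `R`. -/
def Stmt_NZG : Prop :=
  ∀ {J K B : Type} [Fintype J] [Fintype K] [Fintype B]
    [DecidableEq J] [DecidableEq K] [DecidableEq B] (D : BData J B)
    {R : Type} [CommRing R] [Algebra ℂ R] (π : MvPolynomial (J ⊕ K) ℂ →ₐ[ℂ] R),
    RingHom.ker π = Ideal.span {r | ∃ b₀ b₁ b₂, r = D.rel K b₀ b₁ b₂} →
    ∀ v, π (MvPolynomial.X v) ≠ 0

/-- PTC: algebra homomorphisms `R → ℂ` give points. -/
def Stmt_PTC : Prop :=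
  ∀ {J K B : Type} [Fintype J] [Fintype K] [Fintype B]
    [DecidableEq J] [DecidableEq K] [DecidableEq B] (D : BData J B)
    {R : Type} [CommRing R] [Algebra ℂ R] (π : MvPolynomial (J ⊕ K) ℂ →ₐ[ℂ] R),
    RingHom.ker π = Ideal.span {r | ∃ b₀ b₁ b₂, r = D.rel K b₀ b₁ b₂} →
    ∀ x : R →ₐ[ℂ] ℂ, D.IsPt (fun j => x (π (MvPolynomial.X (Sum.inl j))))

/-- PHIG: the homomorphism to `ℂ[X_0, X_1]` defined by a polynomial solution. -/
def Stmt_PHIG : Prop :=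
  ∀ {J K B : Type} [Fintype J] [Fintype K] [Fintype B]
    [DecidableEq J] [DecidableEq K] [DecidableEq B] (D : BData J B)
    {R : Type} [CommRing R] [Algebra ℂ R] (π : MvPolynomial (J ⊕ K) ℂ →ₐ[ℂ] R),
    Function.Surjective π → RingHom.ker π = Ideal.span {r | ∃ b₀ b₁ b₂, r = D.rel K b₀ b₁ b₂} →
    ∀ (w : J ⊕ K → ℕ) (δ : ℕ) (y : J ⊕ K → ℂ) (N : ℕ) (τ : J ⊕ K → ℂ[X]) (f g : ℂ[X]), 0 < N →
    (∀ v, y v ≠ 0) → (∀ b, ∑ j with D.bl j = b, D.l j * w (Sum.inl j) = δ) →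
    (∀ v, (τ v).natDegree = N * w v ∧ (τ v).leadingCoeff = y v) →
    (∀ b, D.uu (fun j => τ (Sum.inl j)) b = C (D.al b) * f + C (D.be b) * g) →
    (∀ v v', v ≠ v' → IsCoprime (τ v) (τ v')) →
    ∃ φ : R →ₐ[ℂ] MvPolynomial (Fin 2) ℂ,
      (∀ v, φ (π (MvPolynomial.X v)) ∈ Pool.TVar.lineGr (N * w v)) ∧
      (∀ v t, MvPolynomial.eval ![t, 1] (φ (π (MvPolynomial.X v))) = (τ v).eval t) ∧
      (∀ v t, MvPolynomial.eval ![t, 0] (φ (π (MvPolynomial.X v))) = y v * t ^ (N * w v)) ∧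
      (∀ q : Ideal (MvPolynomial (Fin 2) ℂ), q.IsPrime →
        (MvPolynomial.X 0 ∉ q ∨ MvPolynomial.X 1 ∉ q) →
        ∀ v v', v ≠ v' → φ (π (MvPolynomial.X v)) ∈ q → φ (π (MvPolynomial.X v')) ∉ q)

end

end Pool.C1
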