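import Pool.Agent.Work.MP_dcf6a6_c1.ABS
import Pool.Agent.Work.MP_dcf6a6_c1.Interface

/-!
# Assembly of the complexity-one theorem
-/

open CategoryTheory AlgebraicGeometry

namespace Pool.C1

noncomputable section

open Pool.TVar

variable {J K B H : Type} [Fintype J] [Fintype K] [Fintype B]
    [DecidableEq J] [DecidableEq K] [DecidableEq B] [AddCommGroup H] [DecidableEq H]
    {D : TriData J K B H} {R : Type} [CommRing R] [Algebra ℂ R] {ℛ : H → Submodule ℂ R}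
    [GradedAlgebra ℛ] {L : H} {A : Type} [CommRing A] [Algebra ℂ A] {𝒜 : ℕ → Submodule ℂ A}
    [GradedAlgebra 𝒜]

/-- the generic setup of a trinomial Cox ring -/
def setup (hFSG : Stmt_FSG) (hNZG : Stmt_NZG) (pr : D.Pres R ℛ) : Setup (J ⊕ K) ℛ where
  deg := D.deg
  nonempty := by
    have h : 0 < Fintype.card B := lt_of_lt_of_le (by norm_num) D.three
    obtain ⟨b⟩ := Fintype.card_pos_iff.mp h
    obtain ⟨j, -⟩ := D.bl_surj b
    exact ⟨Sum.inl j⟩
  pointed := D.pointed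
  generated := D.generated
  π := pr.π
  surj := pr.surj
  graded := pr.graded
  ne := hNZG D.toBData pr.π pr.ker
  fs := hFSG D.toBData pr.π pr.surj pr.ker

omit [DecidableEq H] in
/-- the weights are balanced -/
theorem bal_nat (D : TriData J K B H) (d : H →+ ℤ) (hd : ∀ v, 0 < d (D.deg v)) (b : B) :
    ∑ j with D.bl j = b, D.l j * (d (D.deg (Sum.inl j))).toNat = (d D.dT).toNat := by
  have h1 := congrArg d (D.homog b)
  rw [map_sum] at h1
  have h2 : ((∑ j with D.bl j = b, D.l j * (d (D.deg (Sum.inl j))).toNat : ℕ) : ℤ) = d D.dT := by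
    rw [← h1, Nat.cast_sum]
    refine Finset.sum_congr rfl fun j _ => ?_
    rw [Nat.cast_mul, Int.toNat_of_nonneg (hd _).le, map_nsmul, nsmul_eq_mul]
  rw [← h2, Int.toNat_natCast]

theorem main [IsDomain R] (hLOC : Stmt_LOC) (hPMAP : Stmt_PMAP) (hP1 : Stmt_P1)
    (hDENS : Stmt_DENS) (hFSG : Stmt_FSG) (hNZG : Stmt_NZG) (hPTC : Stmt_PTC)
    (hPHIG : Stmt_PHIG) (hCORE : Pool.C1.Stmt_CORE) (pr : D.Pres R ℛ) (hL : D.MovingInterior L)
    (sr : SectionRing ℛ L A 𝒜) :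
    ∃ U : (Proj 𝒜).Opens, Dense (U : Set (Proj 𝒜)) ∧ (∀ x ∈ U, IsSmoothPt (structMap 𝒜) x) ∧
      ∀ x y : Proj 𝒜, x ∈ U → y ∈ U → IsClosed ({x} : Set (Proj 𝒜)) →
        IsClosed ({y} : Set (Proj 𝒜)) →
        ∃ f : Proj lineGr ⟶ Proj 𝒜, f ≫ structMap 𝒜 = structMap lineGr ∧
          (∀ q, IsSmoothPt (structMap 𝒜) (f q)) ∧ (∃ q q', f q ≠ f q') ∧
          x ∈ Set.range f ∧ y ∈ Set.range f := by
  refine abs_main hLOC hPMAP hP1 hDENS (setup hFSG hNZG pr) hL ?_ sr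
  intro d hd x y hx hy
  have hd : ∀ v, 0 < d (D.deg v) := hd
  obtain ⟨N, τ, f, g, hN, hτ, hrel, hcop⟩ := hCORE D.toBData
    (fun v => (d (D.deg v)).toNat) (d D.dT).toNat
    (fun v => x (pr.π (MvPolynomial.X v))) (fun v => y (pr.π (MvPolynomial.X v)))
    D.platonic (fun v => by have := hd v; omega) (bal_nat D d hd)
    (hPTC D.toBData pr.π pr.ker x) (hPTC D.toBData pr.π pr.ker y) hx hy
  obtain ⟨φ, hφ1, hφ2, hφ3, hφ4⟩ := hPHIG D.toBData pr.π pr.surj pr.ker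
    (fun v => (d (D.deg v)).toNat) (d D.dT).toNat (fun v => y (pr.π (MvPolynomial.X v))) N τ f g
    hN hy (bal_nat D d hd) (fun v => ⟨(hτ v).1, (hτ v).2.1⟩) hrel hcop
  refine ⟨N, φ, hN, hφ1, ?_, ?_, ?_, hφ4⟩
  · intro v
    have h1 := hφ2 v 0
    rw [← Polynomial.coeff_zero_eq_eval_zero, (hτ v).2.2] at h1
    exact h1
  · intro v
    have h1 := hφ3 v 1
    rw [one_pow, mul_one] at h1
    exact h1
  · intro v
    have hdeg : (τ v).degree ≠ 0 := by
      intro h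
      have h1 := Polynomial.natDegree_eq_of_degree_eq_some h
      rw [(hτ v).1] at h1
      have h2 := hd v
      exact (Nat.mul_pos hN (by omega : 0 < (d (D.deg v)).toNat)).ne' h1
    obtain ⟨t, ht⟩ := IsAlgClosed.exists_root (τ v) hdeg
    refine ⟨t, ?_⟩
    have h1 := hφ2 v t
    rw [ht.eq_zero] at h1
    exact h1

end

end Pool.C1
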